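import Pool.Agent.W5h82.Lim.Path

/-! The limit sequence of the pattern 1243.

With `(q)_b = (1 - q) (1 - q^2) ⋯ (1 - q^b)`,

`∑ a_k q^k = 1 / (q)_∞ * ∑_b M_b(q) / (q)_b`,

where `M_b(q)` is the sum of `q ^ weight` over all Motzkin paths of length `b`. -/

open Finset Equiv PowerSeries

namespace Pool.Agent.Results.MP_6fb490_co.LimitSequence

/-- The inversion number. -/
def inv {n : ℕ} (π : Perm (Fin n)) : ℕ :=
  (univ.filter (fun p : Fin n × Fin n => p.1 < p.2 ∧ π p.2 < π p.1)).card

/-- `π` contains the pattern `p`. -/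
def Contains {m n : ℕ} (p : Perm (Fin m)) (π : Perm (Fin n)) : Prop :=
  ∃ f : Fin m → Fin n, StrictMono f ∧ ∀ i j : Fin m, p i < p j ↔ π (f i) < π (f j)

/-- The pattern 1243; with entries counted from `0` it is `0132`. -/
def p1243 : Perm (Fin 4) := swap 2 3

/-- The number of permutations of length `n` that avoid 1243 and have `k` inversions. -/
noncomputable def av (n k : ℕ) : ℕ :=
  Nat.card {π : Perm (Fin n) // ¬ Contains p1243 π ∧ inv π = k}

/-- A Motzkin path of length `b`, given by its heights: it starts and ends at `0` and each step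
changes the height by `1`, `0` or `-1`. (The heights of such a path are at most `b`.) -/
def IsMotzkin {b : ℕ} (h : Fin (b + 1) → Fin (b + 1)) : Prop :=
  h 0 = 0 ∧ h (Fin.last b) = 0 ∧
    ∀ i : Fin b, (h i.castSucc : ℕ) ≤ h i.succ + 1 ∧ (h i.succ : ℕ) ≤ h i.castSucc + 1

/-- The weight of a path: the `i`-th step, `i = 1, ..., b`, counts `i` if it is a down step, and
`i` minus the height after the step otherwise. -/
def weight {b : ℕ} (h : Fin (b + 1) → Fin (b + 1)) : ℕ :=
  ∑ i : Fin b, ((i : ℕ) + 1 - if h i.succ < h i.castSucc then 0 else (h i.succ : ℕ))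

open Classical in
/-- The generating polynomial of the Motzkin paths of length `b` by weight. -/
noncomputable def motzkin (b : ℕ) : ℚ⟦X⟧ :=
  ∑ h : Fin (b + 1) → Fin (b + 1), if IsMotzkin h then X ^ weight h else 0

lemma contains_iff {n : ℕ} (π : Perm (Fin n)) : Contains p1243 π ↔
    ∃ a b c d : Fin n, a < b ∧ b < c ∧ c < d ∧ π a < π b ∧ π b < π d ∧ π d < π c := by
  constructor
  · rintro ⟨f, hf, h⟩
    refine ⟨f 0, f 1, f 2, f 3, hf (by decide), hf (by decide), hf (by decide),
      (h 0 1).1 (by unfold p1243; decide), (h 1 3).1 (by unfold p1243; decide),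
      (h 3 2).1 (by unfold p1243; decide)⟩
  · rintro ⟨a, b, c, d, hab, hbc, hcd, h1, h2, h3⟩
    refine ⟨![a, b, c, d], ?_, ?_⟩
    · rw [Fin.strictMono_iff_lt_succ]
      intro i
      fin_cases i
      · exact hab
      · exact hbc
      · exact hcd
    · have hg : StrictMono ![π a, π b, π d, π c] := by
        rw [Fin.strictMono_iff_lt_succ]
        intro i
        fin_cases i
        · exact h1
        · exact h2
        · exact h3
      have he : ∀ i, π (![a, b, c, d] i) = ![π a, π b, π d, π c] (p1243 i) := by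
        intro i
        unfold p1243
        fin_cases i <;> rfl
      intro i j
      rw [he, he, hg.lt_iff_lt]

lemma av_eq (n k : ℕ) : av n k = W5h82.Lim.av n k := by
  classical
  unfold av W5h82.Lim.av
  rw [Nat.card_eq_fintype_card, Fintype.card_subtype]
  congr 1
  ext π
  simp only [mem_filter, mem_univ, true_and, contains_iff]
  rfl

lemma map_Iq (b : ℕ) : PowerSeries.map (Int.castRingHom ℚ) (W5h82.Lim.Iq b) =
    (∏ i ∈ range b, (1 - X ^ (i + 1)) : ℚ⟦X⟧)⁻¹ := by
  rw [PowerSeries.eq_inv_iff_mul_eq_one]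
  · have h1 := congrArg (PowerSeries.map (Int.castRingHom ℚ)) (W5h82.Lim.qf_Iq b)
    rw [map_mul, map_one, mul_comm] at h1
    refine Eq.trans ?_ h1
    congr 1
    unfold W5h82.Lim.qf
    rw [map_prod]
    apply prod_congr rfl
    intro i _
    simp
  · rw [map_prod, prod_ne_zero_iff]
    intro i _
    simp

lemma map_mot (b : ℕ) : PowerSeries.map (Int.castRingHom ℚ) (W5h82.Lim.mot b 0) = motzkin b := by
  classical
  rw [W5h82.Lim.mot_eq, map_sum]
  unfold motzkin
  apply sum_congr rfl
  intro h _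
  have h1 : W5h82.Lim.IsMotzkin h ↔ IsMotzkin h := Iff.rfl
  by_cases hh : IsMotzkin h
  · rw [if_pos (h1.2 hh), if_pos hh, map_pow, PowerSeries.map_X]
    rfl
  · rw [if_neg (fun h2 => hh (h1.1 h2)), if_neg hh, map_zero]

/-- **The limit sequence of 1243.** The number of 1243-avoiding permutations of length `n` with
`k` inversions is a constant `a k` for `n ≥ k + 2`, and `∑ a_k q^k` is
`1 / ((1 - q) (1 - q^2) ⋯)` times the sum over `b` of `motzkin b / ((1 - q) ⋯ (1 - q^b))`
(the product may be cut after `m` factors and the sum after `b = m` for the coefficients of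
`q^k` with `k ≤ m`). -/
theorem result :
    ∃ a : ℕ → ℕ,
      (∀ n k : ℕ, k + 2 ≤ n → av n k = a k) ∧
      ∀ m k : ℕ, k ≤ m → (a k : ℚ) = coeff k
        ((∏ i ∈ range m, (1 - X ^ (i + 1)) : ℚ⟦X⟧)⁻¹ *
          ∑ b ∈ range (m + 1), motzkin b * (∏ i ∈ range b, (1 - X ^ (i + 1)) : ℚ⟦X⟧)⁻¹) := by
  refine ⟨fun k => av (k + 2) k, ?_, ?_⟩
  · intro n k hn
    simp only [av_eq]
    have h1 := W5h82.Lim.av_final n k k le_rfl hn
    have h2 := W5h82.Lim.av_final (k + 2) k k le_rfl le_rfl
    exact_mod_cast h1.trans h2.symm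
  · intro m k hk
    simp only [av_eq]
    have h1 := congrArg (Int.castRingHom ℚ) (W5h82.Lim.av_final (k + 2) k m hk le_rfl)
    rw [← PowerSeries.coeff_map, map_mul, map_sum, map_Iq] at h1
    simp only [map_mul, map_Iq, map_mot] at h1
    rw [← h1]
    simp

end Pool.Agent.Results.MP_6fb490_co.LimitSequence
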